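import Pool.Agent.Lib.MP_c7af3c_ag.ELL.H86.Pts

/-!
# MP_c7af3c_ag, project ELL: module INV
-/

set_option autoImplicit false

namespace Pool.Agent.Lib.MP_c7af3c_ag.ELL.H86

open AlgebraicGeometry CategoryTheory CategoryTheory.Limits Pool.Agent.Ell

variable (k : Type) [Field k]

theorem onC_neg {A : Type} [CommRing A] {a b : A} (h : OnC a b) : OnC a (-b) := by
  unfold OnC at *
  rw [neg_sq, h]

/-- the inverse on the affine curve -/
noncomputable def ng : B k →ₐ[k] B k := bHom _ _ (onC_neg (onC_b k))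

/-- the inverse on `B[1/x]` -/
noncomputable def ngV : Bx k →+* Bx k :=
  IsLocalization.Away.lift (bx k) (g := (algebraMap (B k) (Bx k)).comp (ng k : B k →+* B k)) (by
    change IsUnit (algebraMap (B k) (Bx k) (ng k (bx k)))
    unfold ng
    rw [bHom_bx]
    exact IsUnit.of_mul_eq_one _ (x_ux k))

theorem ngV_algebraMap (z : B k) :
    ngV k (algebraMap (B k) (Bx k) z) = algebraMap (B k) (Bx k) (ng k z) :=
  IsLocalization.Away.lift_eq (bx k) (g := (algebraMap (B k) (Bx k)).comp (ng k : B k →+* B k)) _ z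

theorem ngV_ux : ngV k (ux k) = ux k := by
  have h1 := congrArg (ngV k) (x_ux k)
  rw [map_mul, ngV_algebraMap, map_one] at h1
  have h0 : ng k (bx k) = bx k := by
    unfold ng
    rw [bHom_bx]
  rw [h0] at h1
  have h2 := x_ux k
  generalize algebraMap (B k) (Bx k) (bx k) = x at *
  generalize ngV k (ux k) = s at *
  generalize ux k = u at *
  linear_combination u * h1 - s * h2

/-- the inverse on `B[1/x]`, homomorphism of algebras -/
noncomputable def ngV' : Bx k →ₐ[k] Bx k :=
  { ngV k with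
    commutes' := fun r => by
      have h1 : algebraMap k (Bx k) r = algebraMap (B k) (Bx k) (algebraMap k (B k) r) := by
        rw [← IsScalarTower.algebraMap_apply]
      change ngV k (algebraMap k (Bx k) r) = _
      rw [h1, ngV_algebraMap, (ng k).commutes] }

theorem ngV_sg : (ngV' k).comp (sg k) = (sg k).comp (ng k) := by
  refine bHom_ext ?_ ?_
  · change ngV k (sg k (bx k)) = sg k (ng k (bx k))
    unfold ng
    rw [bHom_bx]
    unfold sg
    rw [bHom_bx, map_neg, ngV_ux]
  · change ngV k (sg k (by' k)) = sg k (ng k (by' k))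
    unfold ng
    rw [bHom_by, map_neg]
    unfold sg
    rw [bHom_by, map_mul, map_pow, ngV_ux, ngV_algebraMap]
    unfold ng
    rw [bHom_by, map_neg, neg_mul]

/-- the inverse on the affine curve -/
noncomputable def iC : Cv k ⟶ Cv k := Spec.map (CommRingCat.ofHom (ng k : B k →+* B k))

/-- the inverse on `x ≠ 0` -/
noncomputable def iV : Vv k ⟶ Vv k := Spec.map (CommRingCat.ofHom (ngV k))

theorem iV_jj : iV k ≫ jj k = jj k ≫ iC k := by
  unfold iV jj iC
  rw [← Spec.map_comp, ← Spec.map_comp, ← CommRingCat.ofHom_comp, ← CommRingCat.ofHom_comp]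
  congr 2
  exact RingHom.ext fun z => ngV_algebraMap k z

theorem iV_jt : iV k ≫ jt k = jt k ≫ iC k := by
  unfold iV jt iC
  rw [← Spec.map_comp, ← Spec.map_comp, ← CommRingCat.ofHom_comp, ← CommRingCat.ofHom_comp]
  congr 2
  exact congrArg (fun f : B k →ₐ[k] Bx k => (f : B k →+* Bx k)) (ngV_sg k)

/-- the inverse on the elliptic curve -/
noncomputable def iE : El k ⟶ El k :=
  pushout.desc (iC k ≫ j0 k) (iC k ≫ j1 k) (by
    rw [← Category.assoc, ← Category.assoc, ← iV_jj, ← iV_jt, Category.assoc, Category.assoc,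
      glue])

theorem j0_iE : j0 k ≫ iE k = iC k ≫ j0 k := pushout.inl_desc _ _ _

theorem j1_iE : j1 k ≫ iE k = iC k ≫ j1 k := pushout.inr_desc _ _ _

theorem iC_sC : iC k ≫ sC k = sC k := by
  unfold iC sC
  rw [← Spec.map_comp, ← CommRingCat.ofHom_comp]
  congr 2
  exact RingHom.ext fun z => (ng k).commutes z

theorem iE_sE : iE k ≫ sE k = sE k := by
  apply pushout.hom_ext
  · change j0 k ≫ iE k ≫ sE k = j0 k ≫ sE k
    rw [← Category.assoc, j0_iE, Category.assoc, j0_sE, iC_sC]
  · change j1 k ≫ iE k ≫ sE k = j1 k ≫ sE k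
    rw [← Category.assoc, j1_iE, Category.assoc, j1_sE, iC_sC]

/-- the inverse over `k` -/
noncomputable def IE : EE k ⟶ EE k := Over.homMk (iE k) (iE_sE k)

/-- the inverse over `k` -/
noncomputable def IC : CC k ⟶ CC k := Over.homMk (iC k) (iC_sC k)

theorem J0_IE : J0 k ≫ IE k = IC k ≫ J0 k := by
  apply Over.OverMorphism.ext
  exact j0_iE k

theorem J1_IE : J1 k ≫ IE k = IC k ≫ J1 k := by
  apply Over.OverMorphism.ext
  exact j1_iE k

variable {k}

theorem ptC_IC (a b : k) (h : OnC a b) : ptC a b h ≫ IC k = ptC a (-b) (onC_neg h) := by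
  apply Over.OverMorphism.ext
  change Spec.map _ ≫ Spec.map _ = Spec.map _
  rw [← Spec.map_comp, ← CommRingCat.ofHom_comp]
  congr 2
  have h1 : (bHom (R := k) a b h).comp (ng k) = bHom (R := k) a (-b) (onC_neg h) := by
    refine bHom_ext ?_ ?_
    · change bHom (R := k) a b h (ng k (bx k)) = _
      unfold ng
      rw [bHom_bx, bHom_bx, bHom_bx]
    · change bHom (R := k) a b h (ng k (by' k)) = _
      unfold ng
      rw [bHom_by, bHom_by, map_neg, bHom_by]
  exact congrArg (fun f : B k →ₐ[k] k => (f : B k →+* k)) h1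

theorem inv : InvStatement := by
  intro k _ _ _
  refine ⟨IE k, fun P => ?_⟩
  rcases P with _ | ⟨a, b, h⟩
  · change (ptC (0 : k) 0 onC_00 ≫ J1 k) ≫ IE k = ptC (0 : k) 0 onC_00 ≫ J1 k
    rw [Category.assoc, J1_IE, ← Category.assoc, ptC_IC,
      ptC_congr (onC_neg onC_00) onC_00 rfl neg_zero]
  · rw [WeierstrassCurve.Affine.Point.neg_some]
    change (ptC a b (ns_onC h) ≫ J0 k) ≫ IE k = ptC a ((W k).negY a b) _ ≫ J0 k
    rw [Category.assoc, J0_IE, ← Category.assoc, ptC_IC]
    congr 1
    exact ptC_congr _ _ rfl (by simp [WeierstrassCurve.Affine.negY])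

end Pool.Agent.Lib.MP_c7af3c_ag.ELL.H86
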