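import Pool.Agent.Lib.MP_c7af3c_ag.ELL.Iface

/-!
# MP_c7af3c_ag, project ELL: module PTS
-/

set_option autoImplicit false

namespace Pool.Agent.Lib.MP_c7af3c_ag.ELL.H86

open AlgebraicGeometry CategoryTheory CategoryTheory.Limits Pool.Agent.Ell

variable {k : Type} [Field k]

/-- the evaluation of `B[1/x]` at a point with `a ≠ 0` -/
noncomputable def evV (a b : k) (h : OnC a b) (ha : a ≠ 0) : Bx k →+* k :=
  IsLocalization.Away.lift (bx k) (g := (bHom (R := k) a b h : B k →+* k)) (by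
    change IsUnit (bHom (R := k) a b h (bx k))
    rw [bHom_bx]
    exact ha.isUnit)

theorem evV_algebraMap (a b : k) (h : OnC a b) (ha : a ≠ 0) (z : B k) :
    evV a b h ha (algebraMap (B k) (Bx k) z) = bHom (R := k) a b h z :=
  IsLocalization.Away.lift_eq (bx k) (g := (bHom (R := k) a b h : B k →+* k)) _ z

theorem evV_ux (a b : k) (h : OnC a b) (ha : a ≠ 0) : evV a b h ha (ux k) = a⁻¹ := by
  have h1 := congrArg (evV a b h ha) (x_ux k)
  rw [map_mul, evV_algebraMap, bHom_bx, map_one] at h1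
  exact eq_inv_of_mul_eq_one_right h1

theorem onC_tr {a b : k} (h : OnC a b) (ha : a ≠ 0) : OnC (-a⁻¹) (b * a⁻¹ ^ 2) := by
  unfold OnC at *
  have h2 : a * a⁻¹ = 1 := mul_inv_cancel₀ ha
  generalize a⁻¹ = u at *
  have h3 : a ^ 3 * u ^ 4 = u := by
    have : a ^ 3 * u ^ 4 = (a * u) ^ 3 * u := by ring
    rw [this, h2]; ring
  have h4 : a * u ^ 4 = u ^ 3 := by
    have : a * u ^ 4 = (a * u) * u ^ 3 := by ring
    rw [this, h2]; ring
  calc (b * u ^ 2) ^ 2 = b ^ 2 * u ^ 4 := by ring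
    _ = (a ^ 3 - a) * u ^ 4 := by rw [h]
    _ = a ^ 3 * u ^ 4 - a * u ^ 4 := by ring
    _ = (-u) ^ 3 - (-u) := by rw [h3, h4]; ring

theorem evV_alg (a b : k) (h : OnC a b) (ha : a ≠ 0) (r : k) :
    evV a b h ha (algebraMap k (Bx k) r) = r := by
  have h1 : algebraMap k (Bx k) r = algebraMap (B k) (Bx k) (algebraMap k (B k) r) := by
    rw [← IsScalarTower.algebraMap_apply]
  rw [h1, evV_algebraMap]
  exact (bHom (R := k) a b h).commutes r

/-- the evaluation as a homomorphism of algebras -/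
noncomputable def evV' (a b : k) (h : OnC a b) (ha : a ≠ 0) : Bx k →ₐ[k] k :=
  { evV a b h ha with commutes' := fun r => evV_alg a b h ha r }

theorem evV_sg (a b : k) (h : OnC a b) (ha : a ≠ 0) :
    (evV' a b h ha).comp (sg k) = bHom (R := k) (-a⁻¹) (b * a⁻¹ ^ 2) (onC_tr h ha) := by
  refine bHom_ext ?_ ?_
  · rw [bHom_bx]
    change evV a b h ha (sg k (bx k)) = _
    unfold sg
    rw [bHom_bx, map_neg, evV_ux]
  · rw [bHom_by]
    change evV a b h ha (sg k (by' k)) = _
    unfold sg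
    rw [bHom_by, map_mul, map_pow, evV_ux, evV_algebraMap, bHom_by]

/-- the point of `V` -/
noncomputable def ptV (a b : k) (h : OnC a b) (ha : a ≠ 0) : Spec (CommRingCat.of k) ⟶ Vv k :=
  Spec.map (CommRingCat.ofHom (evV a b h ha))

theorem ptV_jj (a b : k) (h : OnC a b) (ha : a ≠ 0) :
    ptV a b h ha ≫ jj k = (ptC a b h).left := by
  change Spec.map _ ≫ Spec.map _ = Spec.map _
  rw [← Spec.map_comp, ← CommRingCat.ofHom_comp]
  congr 2
  exact RingHom.ext fun z => evV_algebraMap a b h ha z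

theorem ptV_jt (a b : k) (h : OnC a b) (ha : a ≠ 0) :
    ptV a b h ha ≫ jt k = (ptC (-a⁻¹) (b * a⁻¹ ^ 2) (onC_tr h ha)).left := by
  change Spec.map _ ≫ Spec.map _ = Spec.map _
  rw [← Spec.map_comp, ← CommRingCat.ofHom_comp]
  congr 2
  exact congrArg (fun f : B k →ₐ[k] k => (f : B k →+* k)) (evV_sg a b h ha)

theorem ptC_J1 (a b : k) (h : OnC a b) (ha : a ≠ 0) :
    ptC a b h ≫ J1 k = ptC (-a⁻¹) (b * a⁻¹ ^ 2) (onC_tr h ha) ≫ J0 k := by
  apply Over.OverMorphism.ext
  have e1 : (ptV a b h ha ≫ jj k) ≫ j1 k = (ptV a b h ha ≫ jt k) ≫ j0 k := by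
    rw [Category.assoc, Category.assoc, glue']
  exact ((congrArg (fun f : Spec (CommRingCat.of k) ⟶ Cv k => f ≫ j1 k)
    (ptV_jj a b h ha)).symm.trans e1).trans
    (congrArg (fun f : Spec (CommRingCat.of k) ⟶ Cv k => f ≫ j0 k) (ptV_jt a b h ha))

theorem ptC_J0' (a b : k) (h : OnC a b) (ha : a ≠ 0) :
    ptC a b h ≫ J0 k = ptC (-a⁻¹) (b * a⁻¹ ^ 2) (onC_tr h ha) ≫ J1 k := by
  apply Over.OverMorphism.ext
  have e1 : (ptV a b h ha ≫ jj k) ≫ j0 k = (ptV a b h ha ≫ jt k) ≫ j1 k := by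
    rw [Category.assoc, Category.assoc, glue]
  exact ((congrArg (fun f : Spec (CommRingCat.of k) ⟶ Cv k => f ≫ j0 k)
    (ptV_jj a b h ha)).symm.trans e1).trans
    (congrArg (fun f : Spec (CommRingCat.of k) ⟶ Cv k => f ≫ j1 k) (ptV_jt a b h ha))

theorem ptC_congr {a b a' b' : k} (h : OnC a b) (h' : OnC a' b') (h1 : a = a') (h2 : b = b') :
    ptC a b h = ptC a' b' h' := by
  subst h1 h2
  rfl

theorem ptC_inj {a b a' b' : k} (h : OnC a b) (h' : OnC a' b') (e : ptC a b h = ptC a' b' h') :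
    a = a' ∧ b = b' := by
  have h1 : Spec.map (CommRingCat.ofHom (bHom (R := k) a b h : B k →+* k)) =
      Spec.map (CommRingCat.ofHom (bHom (R := k) a' b' h' : B k →+* k)) :=
    congrArg (fun f : PT k ⟶ CC k => f.left) e
  have h2 := Spec.map_injective h1
  have h3 : (bHom (R := k) a b h : B k →+* k) = (bHom (R := k) a' b' h' : B k →+* k) :=
    congrArg (fun f : CommRingCat.of (B k) ⟶ CommRingCat.of k => f.hom) h2
  constructor
  · have := congrArg (fun f : B k →+* k => f (bx k)) h3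
    simpa using this
  · have := congrArg (fun f : B k →+* k => f (by' k)) h3
    simpa using this

/-- the origin is not in the second chart -/
theorem ne_J0_J1 {a b b' : k} (h : OnC a b) (h' : OnC (0 : k) b') :
    ptC a b h ≫ J0 k ≠ ptC 0 b' h' ≫ J1 k := by
  intro e
  have h1 : (ptC a b h).left ≫ j0 k = (ptC 0 b' h').left ≫ j1 k :=
    congrArg (fun f : PT k ⟶ EE k => f.left) e
  let o : Spec (CommRingCat.of k) := IsLocalRing.closedPoint k
  have h2 : j0 k ((ptC a b h).left o) = j1 k ((ptC 0 b' h').left o) := by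
    have := congrArg (fun f : Spec (CommRingCat.of k) ⟶ El k => f o) h1
    exact this
  obtain ⟨z, -, hz⟩ := j0_eq_j1 k _ _ h2
  have h3 : bx k ∈ ((ptC 0 b' h').left o).asIdeal := by
    change bHom (R := k) 0 b' h' (bx k) ∈ o.asIdeal
    rw [bHom_bx]
    exact Ideal.zero_mem _
  rw [← hz] at h3
  have h4 : sg k (bx k) ∈ z.asIdeal := h3
  exact z.isPrime.ne_top (Ideal.eq_top_of_isUnit_mem _ h4 (isUnit_sg k))

/-- a point in the range of an open immersion over `k` factors -/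
theorem factor_point {X Y : Over (Spec (CommRingCat.of k))} (j : X ⟶ Y) [IsOpenImmersion j.left]
    (p : PT k ⟶ Y) (x : X.left) (hx : j.left x = p.left (IsLocalRing.closedPoint k)) :
    ∃ q : PT k ⟶ X, p = q ≫ j := by
  have h1 : Set.range p.left ⊆ Set.range j.left := by
    rintro _ ⟨o, rfl⟩
    have : o = IsLocalRing.closedPoint k :=
      Subsingleton.elim (α := PrimeSpectrum k) _ _
    rw [this, ← hx]
    exact ⟨x, rfl⟩
  refine ⟨Over.homMk (IsOpenImmersion.lift j.left p.left h1) ?_, ?_⟩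
  · rw [← Over.w j, ← Category.assoc, IsOpenImmersion.lift_fac]
    exact Over.w p
  · apply Over.OverMorphism.ext
    change p.left = IsOpenImmersion.lift j.left p.left h1 ≫ j.left
    rw [IsOpenImmersion.lift_fac]

instance : IsOpenImmersion (J0 k).left := inferInstanceAs (IsOpenImmersion (j0 k))

instance : IsOpenImmersion (J1 k).left := inferInstanceAs (IsOpenImmersion (j1 k))

theorem exists_chart (p : PT k ⟶ EE k) :
    (∃ q : PT k ⟶ CC k, p = q ≫ J0 k) ∨ ∃ q : PT k ⟶ CC k, p = q ≫ J1 k := by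
  rcases j_surj k (p.left (IsLocalRing.closedPoint k)) with ⟨y, hy⟩ | ⟨y, hy⟩
  · exact Or.inl (factor_point (J0 k) p y hy)
  · exact Or.inr (factor_point (J1 k) p y hy)

theorem ns_onC {a b : k} (h : (W k).Nonsingular a b) : OnC a b := by
  have := h.1
  rw [WeierstrassCurve.Affine.equation_iff] at this
  unfold OnC
  linear_combination this

theorem onC_00 : OnC (0 : k) 0 := by simp [OnC]

theorem ptE_some {a b : k} (h : (W k).Nonsingular a b) (h' : OnC a b) :
    ptE (.some a b h) = ptC a b h' ≫ J0 k := rfl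

theorem ptE_zero : ptE (0 : (W k).Point) = ptC (0 : k) 0 onC_00 ≫ J1 k := rfl

theorem pts_part1 (hA : AffStatement) [CharZero k] (a b : k) (h : OnC a b) :
    ptC a b h ≫ J0 k = ptE (aff a b) := by
  obtain ⟨h', e⟩ := hA k a b h
  rw [e]
  rfl

theorem add_T (hA : AffStatement) [CharZero k] [DecidableEq k] {a b : k} (h : OnC a b)
    (ha : a ≠ 0) : aff a b + aff (0 : k) 0 = aff (-a⁻¹) (b * a⁻¹ ^ 2) := by
  obtain ⟨h1, e1⟩ := hA k a b h
  obtain ⟨h2, e2⟩ := hA k 0 0 onC_00
  obtain ⟨h3, e3⟩ := hA k _ _ (onC_tr h ha)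
  rw [e1, e2, e3, WeierstrassCurve.Affine.Point.add_of_X_ne ha]
  unfold OnC at h
  have hs : (W k).slope a 0 b 0 = b * a⁻¹ := by
    rw [WeierstrassCurve.Affine.slope_of_X_ne ha]
    simp [div_eq_mul_inv]
  have hu : a * a⁻¹ = 1 := mul_inv_cancel₀ ha
  rw [WeierstrassCurve.Affine.Point.some.injEq]
  constructor
  · rw [hs, WeierstrassCurve.Affine.addX]
    generalize a⁻¹ = u at *
    simp
    linear_combination (u ^ 2) * h + (a + a ^ 2 * u - u) * hu
  · rw [hs, WeierstrassCurve.Affine.addY, WeierstrassCurve.Affine.negAddY,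
      WeierstrassCurve.Affine.negY, WeierstrassCurve.Affine.addX]
    generalize a⁻¹ = u at *
    simp
    linear_combination (-b * u ^ 3) * h + (b * u ^ 2 - b * ((a * u) ^ 2 + a * u - 1)) * hu

theorem T_add_T (hA : AffStatement) [CharZero k] [DecidableEq k] :
    aff (0 : k) 0 + aff (0 : k) 0 = 0 := by
  obtain ⟨h2, e2⟩ := hA k 0 0 onC_00
  rw [e2]
  exact WeierstrassCurve.Affine.Point.add_self_of_Y_eq (by
    simp [WeierstrassCurve.Affine.negY])

theorem pts_part2 (hA : AffStatement) [CharZero k] [DecidableEq k] (a b : k) (h : OnC a b) :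
    ptC a b h ≫ J1 k = ptE (aff a b + aff 0 0) := by
  by_cases ha : a = 0
  · subst ha
    have hb : b = 0 := by
      unfold OnC at h
      have : b ^ 2 = 0 := by rw [h]; ring
      exact pow_eq_zero_iff (two_ne_zero) |>.1 this
    subst hb
    rw [T_add_T hA, ptE_zero]
  · rw [add_T hA h ha, ptC_J1 a b h ha, pts_part1 hA]

theorem pts (hP : PtcStatement) (hA : AffStatement) : PtsStatement := by
  intro k _ _ _
  refine ⟨⟨?_, ?_⟩, pts_part1 hA, pts_part2 hA⟩
  · intro P Q e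
    rcases P with _ | ⟨a, b, h⟩ <;> rcases Q with _ | ⟨a', b', h'⟩
    · rfl
    · exfalso
      exact ne_J0_J1 _ _ e.symm
    · exfalso
      exact ne_J0_J1 _ _ e
    · have h1 : ptC a b (ns_onC h) ≫ J0 k = ptC a' b' (ns_onC h') ≫ J0 k := e
      have h2 : ptC a b (ns_onC h) = ptC a' b' (ns_onC h') := by
        apply Over.OverMorphism.ext
        have h3 := congrArg (fun f : PT k ⟶ EE k => f.left) h1
        have h4 : (ptC a b (ns_onC h)).left ≫ j0 k = (ptC a' b' (ns_onC h')).left ≫ j0 k := h3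
        exact (cancel_mono (j0 k)).1 h4
      obtain ⟨h3, h4⟩ := ptC_inj _ _ h2
      subst h3 h4
      rfl
  · intro p
    rcases exists_chart p with ⟨q, hq⟩ | ⟨q, hq⟩
    · obtain ⟨a, b, h, rfl⟩ := hP k q
      exact ⟨aff a b, by rw [hq, pts_part1 hA]⟩
    · obtain ⟨a, b, h, rfl⟩ := hP k q
      exact ⟨aff a b + aff 0 0, by rw [hq, pts_part2 hA]⟩

end Pool.Agent.Lib.MP_c7af3c_ag.ELL.H86
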