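import Pool.Agent.Lib.MP_c7af3c_ag.ELL.H86.Gpt
import Pool.Agent.Lib.MP_c7af3c_ag.ELL.H86.Pts

/-!
# MP_c7af3c_ag, project ELL: module LINE
-/

set_option autoImplicit false

namespace Pool.Agent.Lib.MP_c7af3c_ag.ELL.H86

open AlgebraicGeometry CategoryTheory CategoryTheory.Limits Pool.Agent.Ell
open Pool.Agent.Gen Pool.Agent.Gen.H38
open MvPolynomial (homogeneousSubmodule)

theorem lft_projStr (k : Type) [Field k] (n : ℕ)
    [GradedAlgebra (homogeneousSubmodule (Fin (n + 1)) k)] :
    LocallyOfFiniteType (projStr k n) := by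
  have h1 : IsScalarTower k (homogeneousSubmodule (Fin (n + 1)) k 0)
      (MvPolynomial (Fin (n + 1)) k) :=
    ⟨fun a b c => by
      change (a • (b : MvPolynomial (Fin (n + 1)) k)) * c = a • ((b : MvPolynomial _ k) * c)
      exact smul_mul_assoc a _ c⟩
  have h2 : Algebra.FiniteType (homogeneousSubmodule (Fin (n + 1)) k 0)
      (MvPolynomial (Fin (n + 1)) k) :=
    Algebra.FiniteType.of_restrictScalars_finiteType k _ _
  have h3 : Function.Surjective
      (algebraMap k (homogeneousSubmodule (Fin (n + 1)) k 0)) := by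
    rintro ⟨x, hx⟩
    rw [MvPolynomial.mem_homogeneousSubmodule] at hx
    refine ⟨MvPolynomial.coeff 0 x, Subtype.ext ?_⟩
    change MvPolynomial.C (MvPolynomial.coeff 0 x) = x
    exact (MvPolynomial.totalDegree_eq_zero_iff_eq_C.1
      ((MvPolynomial.totalDegree_zero_iff_isHomogeneous _).2 hx)).symm
  have h4 : LocallyOfFiniteType (Spec.map (CommRingCat.ofHom
      (algebraMap k (homogeneousSubmodule (Fin (n + 1)) k 0)))) := by
    rw [HasRingHomProperty.Spec_iff (P := @LocallyOfFiniteType)]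
    exact RingHom.FiniteType.of_surjective _ h3
  unfold projStr
  infer_instance

section

variable {k : Type} [Field k] {n : ℕ} [GradedAlgebra (homogeneousSubmodule (Fin (n + 1)) k)]

/-- the point of projective space over `k` -/
noncomputable def QV (j : Fin (n + 1)) (v : Fin (n + 1) → k) (hj : IsUnit (v j)) :
    PT k ⟶ Over.mk (projStr k n) :=
  Over.homMk (gX k n j v hj) (by
    change gX k n j v hj ≫ projStr k n = 𝟙 _
    rw [gX_str]
    exact Spec.map_id _)

theorem QV_eq (i j : Fin (n + 1)) (v v' : Fin (n + 1) → k) (hi : IsUnit (v i))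
    (hj : IsUnit (v' j)) (c : k) (hc : c ≠ 0) (h : ∀ l, v' l = c * v l) :
    QV j v' hj = QV i v hi := by
  have hj' : IsUnit (v j) := by
    rw [isUnit_iff_ne_zero] at hj ⊢
    intro h0
    rw [h, h0, mul_zero] at hj
    exact hj rfl
  apply Over.OverMorphism.ext
  change gX k n j v' hj = gX k n i v hi
  rw [gX_smul k n j v v' c hc.isUnit hj' hj h]
  exact gX_chart k n j i v hj' hi

variable (k) in
/-- the coordinates along the line -/
noncomputable def wc (a b : Fin (n + 1) → k) (c : Fin 2) (l : Fin (n + 1)) : B k :=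
  if c = 0 then algebraMap k (B k) (a l) * bx k + algebraMap k (B k) (b l)
  else algebraMap k (B k) (b l) * bx k - algebraMap k (B k) (a l)

/-- the value of the coordinates -/
noncomputable def vc (a b : Fin (n + 1) → k) (c : Fin 2) (x : k) (l : Fin (n + 1)) : k :=
  if c = 0 then a l * x + b l else b l * x - a l

omit [GradedAlgebra (homogeneousSubmodule (Fin (n + 1)) k)] in
theorem bHom_wc (a b : Fin (n + 1) → k) (c : Fin 2) (l : Fin (n + 1)) (x y : k)
    (h : OnC x y) : bHom (R := k) x y h (wc k a b c l) = vc a b c x l := by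
  unfold wc vc
  split_ifs
  · rw [map_add, map_mul, bHom_bx, AlgHom.commutes, AlgHom.commutes]
    rfl
  · rw [map_sub, map_mul, bHom_bx, AlgHom.commutes, AlgHom.commutes]
    rfl

/-- the charts -/
abbrev Ac (a b : Fin (n + 1) → k) (i : Fin 2 × Fin (n + 1)) : Type :=
  Localization.Away (wc k a b i.1 i.2)

omit [GradedAlgebra (homogeneousSubmodule (Fin (n + 1)) k)] in
theorem unit_wc (a b : Fin (n + 1) → k) (i : Fin 2 × Fin (n + 1)) :
    IsUnit (algebraMap (B k) (Ac a b i) (wc k a b i.1 i.2)) :=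
  IsLocalization.Away.algebraMap_isUnit _

/-- the domains -/
noncomputable def Uc (a b : Fin (n + 1) → k) (i : Fin 2 × Fin (n + 1)) :
    Over (Spec (CommRingCat.of k)) :=
  Over.mk (Spec.map (CommRingCat.ofHom (algebraMap k (Ac a b i))))

/-- to the affine curve -/
noncomputable def uc (a b : Fin (n + 1) → k) (i : Fin 2 × Fin (n + 1)) : Uc a b i ⟶ CC k :=
  Over.homMk (Spec.map (CommRingCat.ofHom (algebraMap (B k) (Ac a b i)))) (by
    change Spec.map _ ≫ Spec.map _ = Spec.map _
    rw [← Spec.map_comp, ← CommRingCat.ofHom_comp, ← IsScalarTower.algebraMap_eq])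

instance (a b : Fin (n + 1) → k) (i : Fin 2 × Fin (n + 1)) : IsOpenImmersion (uc a b i).left :=
  inferInstanceAs (IsOpenImmersion (Spec.map (CommRingCat.ofHom
    (algebraMap (B k) (Localization.Away (wc k a b i.1 i.2))))))

/-- the chart of the elliptic curve -/
noncomputable def Jc (c : Fin 2) : CC k ⟶ EE k := if c = 0 then J0 k else J1 k

instance (c : Fin 2) : IsOpenImmersion (Jc (k := k) c).left := by
  unfold Jc
  split_ifs <;> infer_instance

/-- the morphisms -/
noncomputable def fc (a b : Fin (n + 1) → k) (i : Fin 2 × Fin (n + 1)) :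
    Uc a b i ⟶ Over.mk (projStr k n) :=
  Over.homMk (gX k n i.2 (fun l => algebraMap (B k) (Ac a b i) (wc k a b i.1 l))
    (unit_wc a b i)) (gX_str k n _ _ _)

/-- a point of the domain and its coordinates -/
theorem point_Uc (hP : PtcStatement) (a b : Fin (n + 1) → k) (i : Fin 2 × Fin (n + 1))
    (q : PT k ⟶ Uc a b i) : ∃ (x y : k) (h : OnC x y) (hv : IsUnit (vc a b i.1 x i.2)),
      q ≫ uc a b i = ptC x y h ∧ q ≫ fc a b i = QV i.2 (vc a b i.1 x) hv := by
  obtain ⟨x, y, h, e⟩ := hP k (q ≫ uc a b i)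
  obtain ⟨φ, hφ⟩ := Spec.map_surjective q.left
  have hw : q.left ≫ Spec.map (CommRingCat.ofHom (algebraMap k (Ac a b i))) = 𝟙 _ := Over.w q
  have h1 : CommRingCat.ofHom (algebraMap k (Ac a b i)) ≫ φ = 𝟙 (CommRingCat.of k) := by
    apply Spec.map_injective
    rw [Spec.map_comp, hφ, Spec.map_id]
    exact hw
  let f : Ac a b i →ₐ[k] k :=
    { φ.hom with
      commutes' := fun r => by
        have := congrArg (fun g : CommRingCat.of k ⟶ CommRingCat.of k => g.hom r) h1
        exact this }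
  have hf : CommRingCat.ofHom (f : Ac a b i →+* k) = φ := rfl
  have h2 : (CommRingCat.ofHom (algebraMap (B k) (Ac a b i)) ≫ φ) =
      CommRingCat.ofHom (bHom (R := k) x y h : B k →+* k) := by
    apply Spec.map_injective
    rw [Spec.map_comp, hφ]
    exact congrArg (fun f : PT k ⟶ CC k => f.left) e
  have h3 : ∀ z : B k, f (algebraMap (B k) (Ac a b i) z) = bHom (R := k) x y h z := by
    intro z
    exact congrArg (fun g : CommRingCat.of (B k) ⟶ CommRingCat.of k => g.hom z) h2
  have h4 : ∀ l, f (algebraMap (B k) (Ac a b i) (wc k a b i.1 l)) = vc a b i.1 x l := by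
    intro l
    rw [h3, bHom_wc]
  have hv : IsUnit (vc a b i.1 x i.2) := by
    rw [← h4]
    exact (unit_wc a b i).map f
  refine ⟨x, y, h, hv, e, ?_⟩
  apply Over.OverMorphism.ext
  change q.left ≫ gX k n i.2 (fun l => algebraMap (B k) (Ac a b i) (wc k a b i.1 l))
    (unit_wc a b i) = gX k n i.2 (vc a b i.1 x) hv
  rw [← hφ, ← hf]
  exact gX_map k n f i.2 _ _ _ _ h4

omit [GradedAlgebra (homogeneousSubmodule (Fin (n + 1)) k)] in
theorem lift_Uc (a b : Fin (n + 1) → k) (i : Fin 2 × Fin (n + 1)) (x y : k) (h : OnC x y)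
    (hv : vc a b i.1 x i.2 ≠ 0) : ∃ q : PT k ⟶ Uc a b i, q ≫ uc a b i = ptC x y h := by
  have hu : IsUnit ((bHom (R := k) x y h : B k →+* k) (wc k a b i.1 i.2)) := by
    change IsUnit (bHom (R := k) x y h (wc k a b i.1 i.2))
    rw [bHom_wc]
    exact hv.isUnit
  let e : Ac a b i →+* k := IsLocalization.Away.lift (wc k a b i.1 i.2)
    (g := (bHom (R := k) x y h : B k →+* k)) hu
  have he : e.comp (algebraMap (B k) (Ac a b i)) = (bHom (R := k) x y h : B k →+* k) :=
    RingHom.ext fun z => IsLocalization.Away.lift_eq (wc k a b i.1 i.2)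
      (g := (bHom (R := k) x y h : B k →+* k)) hu z
  have he' : e.comp (algebraMap k (Ac a b i)) = RingHom.id k := by
    rw [IsScalarTower.algebraMap_eq k (B k) (Ac a b i), ← RingHom.comp_assoc, he]
    exact RingHom.ext fun z => (bHom (R := k) x y h).commutes z
  refine ⟨Over.homMk (Spec.map (CommRingCat.ofHom e)) ?_, ?_⟩
  · change Spec.map _ ≫ Spec.map _ = 𝟙 _
    rw [← Spec.map_comp, ← CommRingCat.ofHom_comp, he']
    exact Spec.map_id _
  · apply Over.OverMorphism.ext
    change Spec.map _ ≫ Spec.map _ = Spec.map _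
    rw [← Spec.map_comp, ← CommRingCat.ofHom_comp, he]

/-- the coordinates of the value at a point -/
noncomputable def vecP (a b : Fin (n + 1) → k) : (W k).Point → Fin (n + 1) → k
  | .zero => a
  | .some x _ _ => fun l => a l * x + b l

omit [GradedAlgebra (homogeneousSubmodule (Fin (n + 1)) k)] in
theorem lin_ne {a b : Fin (n + 1) → k} (hab : LinearIndependent k ![a, b]) (s t : k)
    (hst : s ≠ 0 ∨ t ≠ 0) : ∃ j, s * a j + t * b j ≠ 0 := by
  by_contra hc
  push Not at hc
  have h1 := (LinearIndependent.pair_iff (R := k) (x := a) (y := b)).1 hab s t (by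
    funext j
    exact hc j)
  rcases hst with h | h
  · exact h h1.1
  · exact h h1.2

omit [GradedAlgebra (homogeneousSubmodule (Fin (n + 1)) k)] in
theorem vecP_ne {a b : Fin (n + 1) → k} (hab : LinearIndependent k ![a, b]) (P : (W k).Point) :
    ∃ j, vecP a b P j ≠ 0 := by
  rcases P with _ | ⟨x, y, h⟩
  · obtain ⟨j, hj⟩ := lin_ne hab 1 0 (Or.inl one_ne_zero)
    refine ⟨j, ?_⟩
    change a j ≠ 0
    simpa using hj
  · obtain ⟨j, hj⟩ := lin_ne hab x 1 (Or.inr one_ne_zero)
    refine ⟨j, ?_⟩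
    change a j * x + b j ≠ 0
    intro h0
    apply hj
    linear_combination h0

omit [GradedAlgebra (homogeneousSubmodule (Fin (n + 1)) k)] in
theorem vc_ne {a b : Fin (n + 1) → k} (hab : LinearIndependent k ![a, b]) (c : Fin 2) (x : k) :
    ∃ j, vc a b c x j ≠ 0 := by
  unfold vc
  by_cases hc : c = 0
  · obtain ⟨j, hj⟩ := lin_ne hab x 1 (Or.inr one_ne_zero)
    refine ⟨j, ?_⟩
    rw [if_pos hc]
    intro h0
    apply hj
    linear_combination h0
  · obtain ⟨j, hj⟩ := lin_ne hab (-1) x (Or.inl (neg_ne_zero.2 one_ne_zero))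
    refine ⟨j, ?_⟩
    rw [if_neg hc]
    intro h0
    apply hj
    linear_combination h0

theorem exists_chart' (p : PT k ⟶ EE k) : ∃ (c : Fin 2) (q : PT k ⟶ CC k), p = q ≫ Jc c := by
  rcases exists_chart p with ⟨q, hq⟩ | ⟨q, hq⟩
  · exact ⟨0, q, hq⟩
  · exact ⟨1, q, hq⟩

omit [GradedAlgebra (homogeneousSubmodule (Fin (n + 1)) k)] in
/-- the coordinates at a point of a chart are those of the point, up to a factor -/
theorem vec_compat (hA : AffStatement) [CharZero k] [DecidableEq k] (hb : PtsStatement)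
    (a b : Fin (n + 1) → k) (c : Fin 2) (x y : k) (h : OnC x y) (P : (W k).Point)
    (hp : ptC x y h ≫ Jc c = ptE P) :
    ∃ t : k, t ≠ 0 ∧ ∀ l, vc a b c x l = t * vecP a b P l := by
  obtain ⟨h1, h2, h3⟩ := hb k
  by_cases hc : c = 0
  · subst hc
    have h4 : ptC x y h ≫ J0 k = ptE P := hp
    rw [h2] at h4
    have h5 := h1.1 h4
    subst h5
    obtain ⟨h', e⟩ := hA k x y h
    rw [e]
    refine ⟨1, one_ne_zero, fun l => ?_⟩
    rw [one_mul]
    rfl
  · have hc1 : c = 1 := by
      fin_cases c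
      · exact absurd rfl hc
      · rfl
    subst hc1
    have h4 : ptC x y h ≫ J1 k = ptE P := hp
    by_cases hx : x = 0
    · subst hx
      have hy : y = 0 := by
        unfold OnC at h
        have : y ^ 2 = 0 := by rw [h]; ring
        exact pow_eq_zero_iff (two_ne_zero) |>.1 this
      subst hy
      have h5 : ptE (0 : (W k).Point) = ptE P := h4
      have h6 := h1.1 h5
      subst h6
      refine ⟨-1, neg_ne_zero.2 one_ne_zero, fun l => ?_⟩
      have h7 : vecP a b (0 : (W k).Point) l = a l := rfl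
      rw [h7]
      unfold vc
      rw [if_neg hc]
      ring
    · rw [ptC_J1 x y h hx, h2] at h4
      have h5 := h1.1 h4
      subst h5
      obtain ⟨h', e⟩ := hA k _ _ (onC_tr h hx)
      rw [e]
      refine ⟨x, hx, fun l => ?_⟩
      have h7 : vecP a b (.some (-x⁻¹) (y * x⁻¹ ^ 2) h') l = a l * (-x⁻¹) + b l := rfl
      rw [h7]
      unfold vc
      rw [if_neg hc]
      have h8 : x * x⁻¹ = 1 := mul_inv_cancel₀ hx
      linear_combination (a l) * h8

end

theorem line (hPtc : PtcStatement) (hA : AffStatement) (hPts : PtsStatement)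
    (hMor : MorStatement) (hInt : InteStatement) : LineStatement := by
  intro k _ _ _ n _ a b hab
  classical
  obtain ⟨h1, h2, h3⟩ := hPts k
  obtain ⟨i1, i2, i3⟩ := hInt k
  let E := Equiv.ofBijective _ h1
  have hE : ∀ p : PT k ⟶ EE k, ptE (E.symm p) = p := fun p => E.apply_symm_apply p
  have hne := fun p : PT k ⟶ EE k => vecP_ne hab (E.symm p)
  choose jj' hjj using hne
  let φ : (PT k ⟶ EE k) → (PT k ⟶ Over.mk (projStr k n)) := fun p =>
    QV (jj' p) (vecP a b (E.symm p)) (hjj p).isUnit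
  have e1 : IsReduced (EE k).left := by
    have : IsReduced (El k) := inferInstance
    exact this
  have e2 : LocallyOfFiniteType (EE k).hom := i2
  have e3 : IsSeparated (Over.mk (projStr k n)).hom := by
    change IsSeparated (projStr k n)
    unfold projStr
    infer_instance
  have e4 : LocallyOfFiniteType (Over.mk (projStr k n)).hom := lft_projStr k n
  have hcover : ∀ p : PT k ⟶ EE k, ∃ (i : Fin 2 × Fin (n + 1)) (q : PT k ⟶ Uc a b i),
      q ≫ (uc a b i ≫ Jc i.1) = p := by
    intro p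
    obtain ⟨c, q, hq⟩ := exists_chart' p
    obtain ⟨x, y, h, rfl⟩ := hPtc k q
    obtain ⟨j, hj⟩ := vc_ne hab c x
    obtain ⟨q', hq'⟩ := lift_Uc a b (c, j) x y h hj
    refine ⟨(c, j), q', ?_⟩
    rw [← Category.assoc, hq', hq]
  have hcompat : ∀ (i : Fin 2 × Fin (n + 1)) (q : PT k ⟶ Uc a b i),
      q ≫ fc a b i = φ (q ≫ (uc a b i ≫ Jc i.1)) := by
    intro i q
    obtain ⟨x, y, h, hv, e, e'⟩ := point_Uc hPtc a b i q
    have h4 : ptC x y h ≫ Jc i.1 = ptE (E.symm (q ≫ (uc a b i ≫ Jc i.1))) := by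
      rw [hE, ← Category.assoc, e]
    obtain ⟨t, ht, h5⟩ := vec_compat hA hPts a b i.1 x y h _ h4
    rw [e']
    exact QV_eq _ _ _ _ _ _ t ht h5
  obtain ⟨g, hg⟩ := hMor k (EE k) (Over.mk (projStr k n)) (Fin 2 × Fin (n + 1)) (Uc a b)
    (fun i => uc a b i ≫ Jc i.1) (fun i => by
      change IsOpenImmersion ((uc a b i).left ≫ (Jc i.1).left)
      infer_instance) (fc a b) hcover φ hcompat
  refine ⟨g, ?_, ?_⟩
  · refine ⟨ptE 0, ptE (aff 0 0), fun hEq => ?_⟩
    rw [hg, hg] at hEq
    have h6 : E.symm (ptE 0) = 0 := E.symm_apply_apply 0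
    have h7 : E.symm (ptE (aff (0 : k) 0)) = aff 0 0 := E.symm_apply_apply _
    obtain ⟨h', e⟩ := hA k 0 0 onC_00
    have h8 : vecP a b (E.symm (ptE 0)) = a := by
      rw [h6]
      rfl
    have h9 : vecP a b (E.symm (ptE (aff (0 : k) 0))) = b := by
      rw [h7, e]
      funext l
      change a l * 0 + b l = b l
      ring
    have hja : a (jj' (ptE 0)) ≠ 0 := by
      have := hjj (ptE 0)
      rw [h8] at this
      exact this
    have hjb : b (jj' (ptE (aff (0 : k) 0))) ≠ 0 := by
      have := hjj (ptE (aff (0 : k) 0))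
      rw [h9] at this
      exact this
    have h10 : gX k n (jj' (ptE 0)) a hja.isUnit = gX k n (jj' (ptE (aff (0 : k) 0))) b
        hjb.isUnit := by
      have h11 := congrArg (fun f : PT k ⟶ Over.mk (projStr k n) => f.left) hEq
      have h12 : gX k n (jj' (ptE 0)) (vecP a b (E.symm (ptE 0))) (hjj (ptE 0)).isUnit =
          gX k n (jj' (ptE (aff (0 : k) 0))) (vecP a b (E.symm (ptE (aff (0 : k) 0))))
            (hjj (ptE (aff (0 : k) 0))).isUnit := h11
      simp only [h8, h9] at h12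
      exact h12
    have hch : ⊤ ≤ (gX k n (jj' (ptE (aff (0 : k) 0))) b hjb.isUnit) ⁻¹ᵁ
        Proj.basicOpen (homogeneousSubmodule (Fin (n + 1)) k)
          (MvPolynomial.X (jj' (ptE 0))) := by
      rw [← h10]
      intro z _
      have h0 : (⊤ : (Spec (CommRingCat.of (HomogeneousLocalization.Away (gr k n)
          (MvPolynomial.X (jj' (ptE 0)) : MvPolynomial (Fin (n + 1)) k)))).Opens) ≤
          Proj.awayι (gr k n) (MvPolynomial.X (jj' (ptE 0))) (X_mem k n _) one_pos ⁻¹ᵁ
            Proj.basicOpen (gr k n) (MvPolynomial.X (jj' (ptE 0))) := by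
        rw [← Proj.opensRange_awayι (gr k n) (MvPolynomial.X (jj' (ptE 0))) (X_mem k n _)
          one_pos]
        simp
      exact h0 (TopologicalSpace.Opens.mem_top _)
    have hbj : b (jj' (ptE 0)) ≠ 0 := gX_ne k n _ _ b hjb.isUnit hch
    have h11 : gX k n (jj' (ptE (aff (0 : k) 0))) b hjb.isUnit =
        gX k n (jj' (ptE 0)) b hbj.isUnit := gX_chart k n _ _ b _ _
    have h12 : ∀ l, a l * (a (jj' (ptE 0)))⁻¹ = b l * (b (jj' (ptE 0)))⁻¹ := by
      intro l
      rw [← gX_pcoord k n (jj' (ptE 0)) a hja.isUnit _ h10.symm hch l,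
        ← gX_pcoord k n (jj' (ptE 0)) b hbj.isUnit _ h11 hch l]
    obtain ⟨l, hl⟩ := lin_ne hab (a (jj' (ptE 0)))⁻¹ (-(b (jj' (ptE 0)))⁻¹)
      (Or.inl (inv_ne_zero hja))
    apply hl
    linear_combination h12 l
  · intro P j h
    have h6 : P ≫ g = φ P := hg P
    have h7 : (P ≫ g).left = gX k n (jj' P) (vecP a b (E.symm P)) (hjj P).isUnit := by
      rw [h6]
      rfl
    have h8 : ⊤ ≤ (gX k n (jj' P) (vecP a b (E.symm P)) (hjj P).isUnit) ⁻¹ᵁ
        Proj.basicOpen (homogeneousSubmodule (Fin (n + 1)) k) (MvPolynomial.X j) := by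
      rw [← h7]
      exact h
    have h9 : vecP a b (E.symm P) j ≠ 0 := gX_ne k n _ _ _ _ h8
    have h10 : (P ≫ g).left = gX k n j (vecP a b (E.symm P)) h9.isUnit := by
      rw [h7]
      exact gX_chart k n _ _ _ _ _
    have h11 := gX_pcoord k n j (vecP a b (E.symm P)) h9.isUnit (P ≫ g).left h10 h
    rcases hP : E.symm P with _ | ⟨x, y, hxy⟩
    · refine ⟨(vecP a b (E.symm P) j)⁻¹, 0, funext fun l => ?_⟩
      rw [h11 l, hP]
      change a l * _ = _
      ring
    · refine ⟨x * (vecP a b (E.symm P) j)⁻¹, (vecP a b (E.symm P) j)⁻¹, funext fun l => ?_⟩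
      rw [h11 l, hP]
      change (a l * x + b l) * _ = _
      ring

end Pool.Agent.Lib.MP_c7af3c_ag.ELL.H86
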