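import Pool.Agent.Lib.MP_c7af3c_ag.ELL.Iface
import Pool.Agent.Lib.MP_c7af3c_ag.GEN.H38.Sproj

/-!
# MP_c7af3c_ag, project ELL: module PROJ
-/

set_option autoImplicit false

namespace Pool.Agent.Lib.MP_c7af3c_ag.ELL.H86

open AlgebraicGeometry CategoryTheory CategoryTheory.Limits Pool.Agent.Ell
open Pool.Agent.Gen Pool.Agent.Gen.H38 HomogeneousLocalization
open MvPolynomial (homogeneousSubmodule)

section

variable (k : Type) [Field k] (n : ℕ) [GradedAlgebra (homogeneousSubmodule (Fin (n + 1)) k)]
  {A : Type} [CommRing A] [Algebra k A] (j : Fin (n + 1)) (z : Fin (n + 1) → A)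

/-- evaluation on the localization -/
noncomputable def evL (hz : z j = 1) :
    Localization (Submonoid.powers (MvPolynomial.X j : MvPolynomial (Fin (n + 1)) k)) →+* A :=
  IsLocalization.Away.lift (MvPolynomial.X j : MvPolynomial (Fin (n + 1)) k)
    (g := (MvPolynomial.aeval z : MvPolynomial (Fin (n + 1)) k →ₐ[k] A).toRingHom) (by
      change IsUnit (MvPolynomial.aeval z (MvPolynomial.X j : MvPolynomial (Fin (n + 1)) k))
      rw [MvPolynomial.aeval_X, hz]
      exact isUnit_one)

omit [GradedAlgebra (homogeneousSubmodule (Fin (n + 1)) k)] in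
theorem evL_algebraMap (hz : z j = 1) (F : MvPolynomial (Fin (n + 1)) k) :
    evL k n j z hz (algebraMap _ _ F) = MvPolynomial.aeval z F :=
  IsLocalization.Away.lift_eq (MvPolynomial.X j : MvPolynomial (Fin (n + 1)) k)
    (g := (MvPolynomial.aeval z : MvPolynomial (Fin (n + 1)) k →ₐ[k] A).toRingHom) _ F

/-- evaluation on the degree zero part -/
noncomputable def evA (hz : z j = 1) :
    Away (gr k n) (MvPolynomial.X j : MvPolynomial (Fin (n + 1)) k) →+* A :=
  (evL k n j z hz).comp (algebraMap
    (Away (gr k n) (MvPolynomial.X j : MvPolynomial (Fin (n + 1)) k))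
    (Localization (Submonoid.powers (MvPolynomial.X j : MvPolynomial (Fin (n + 1)) k))))

theorem evA_cst (hz : z j = 1) (a : k) : evA k n j z hz (cst k n j a) = algebraMap k A a := by
  have h1 := congrArg (evL k n j z hz) (val_cst k n j a)
  rw [evL_algebraMap, MvPolynomial.aeval_C] at h1
  exact h1

theorem evA_frX (hz : z j = 1) (l : Fin (n + 1)) : evA k n j z hz (frX k n j l) = z l := by
  have h1 : (frX k n j l).val * algebraMap (MvPolynomial (Fin (n + 1)) k)
      (Localization (Submonoid.powers (MvPolynomial.X j : MvPolynomial (Fin (n + 1)) k)))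
      (MvPolynomial.X j) = algebraMap (MvPolynomial (Fin (n + 1)) k)
      (Localization (Submonoid.powers (MvPolynomial.X j : MvPolynomial (Fin (n + 1)) k)))
      (MvPolynomial.X l) := by
    unfold frX
    rw [Away.val_mk, ← Localization.mk_one_eq_algebraMap, ← Localization.mk_one_eq_algebraMap,
      Localization.mk_mul, Localization.mk_eq_mk_iff, Localization.r_iff_exists]
    refine ⟨1, ?_⟩
    simp [mul_comm]
  have h2 := congrArg (evL k n j z hz) h1
  rw [map_mul, evL_algebraMap, evL_algebraMap, MvPolynomial.aeval_X, MvPolynomial.aeval_X, hz,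
    mul_one] at h2
  exact h2

end

theorem proj : ProjStatement := by
  intro k _ n _ A _ _ j z hz
  refine ⟨Spec.map (CommRingCat.ofHom (evA k n j z hz)) ≫
    Proj.awayι (gr k n) (MvPolynomial.X j) (X_mem k n j) one_pos, ?_, ?_⟩
  · have h1 : Proj.awayι (gr k n) (MvPolynomial.X j) (X_mem k n j) one_pos ≫ projStr k n =
        Spec.map (CommRingCat.ofHom (cst k n j)) := by
      unfold projStr
      rw [← Category.assoc, Proj.awayι_toSpecZero (gr k n) (MvPolynomial.X j) (X_mem k n j)
        one_pos, ← Spec.map_comp]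
      rfl
    rw [Category.assoc, h1, ← Spec.map_comp, ← CommRingCat.ofHom_comp]
    congr 2
    exact RingHom.ext fun a => evA_cst k n j z hz a
  · intro f
    have h0 : (⊤ : (Spec (CommRingCat.of (Away (gr k n)
        (MvPolynomial.X j : MvPolynomial (Fin (n + 1)) k)))).Opens) ≤
        Proj.awayι (gr k n) (MvPolynomial.X j) (X_mem k n j) one_pos ⁻¹ᵁ
          Proj.basicOpen (gr k n) (MvPolynomial.X j) := by
      rw [← Proj.opensRange_awayι (gr k n) (MvPolynomial.X j) (X_mem k n j) one_pos]
      simp
    have e : Spec.map (CommRingCat.ofHom (f : A →+* k)) ≫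
        Spec.map (CommRingCat.ofHom (evA k n j z hz)) ≫
        Proj.awayι (gr k n) (MvPolynomial.X j) (X_mem k n j) one_pos =
        Spec.map (CommRingCat.ofHom (evA k n j z hz) ≫ CommRingCat.ofHom (f : A →+* k)) ≫
        Proj.awayι (gr k n) (MvPolynomial.X j) (X_mem k n j) one_pos := by
      rw [Spec.map_comp, Category.assoc]
    have hh : ⊤ ≤ (Spec.map (CommRingCat.ofHom (f : A →+* k)) ≫
        Spec.map (CommRingCat.ofHom (evA k n j z hz)) ≫
        Proj.awayι (gr k n) (MvPolynomial.X j) (X_mem k n j) one_pos) ⁻¹ᵁ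
          Proj.basicOpen (gr k n) (MvPolynomial.X j) := by
      intro x _
      exact h0 (TopologicalSpace.Opens.mem_top _)
    refine ⟨hh, funext fun l => ?_⟩
    have h2 : ∀ (P : Spec (CommRingCat.of k) ⟶ Proj (homogeneousSubmodule (Fin (n + 1)) k))
        (h : ⊤ ≤ P ⁻¹ᵁ Proj.basicOpen (homogeneousSubmodule (Fin (n + 1)) k)
          (MvPolynomial.X j)),
        P = Spec.map (CommRingCat.ofHom (evA k n j z hz) ≫ CommRingCat.ofHom (f : A →+* k)) ≫
          Proj.awayι (gr k n) (MvPolynomial.X j) (X_mem k n j) one_pos →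
        pcoord k n j P h l = f (z l) := by
      intro P h hP
      subst hP
      have h3 := kval_awayToSection (gr k n) (MvPolynomial.X j) (X_mem k n j) one_pos
        (CommRingCat.ofHom (evA k n j z hz) ≫ CommRingCat.ofHom (f : A →+* k)) h (frX k n j l)
      refine Eq.trans ?_ (h3.trans ?_)
      · rfl
      · change f (evA k n j z hz (frX k n j l)) = _
        rw [evA_frX]
    exact h2 _ hh e

end Pool.Agent.Lib.MP_c7af3c_ag.ELL.H86
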