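import Pool.Agent.Lib.MP_c7af3c_ag.ELL.Iface

/-!
# MP_c7af3c_ag, project ELL: modules PTC and AFF
-/

set_option autoImplicit false

namespace Pool.Agent.Lib.MP_c7af3c_ag.ELL.H86

open AlgebraicGeometry CategoryTheory CategoryTheory.Limits Pool.Agent.Ell

theorem ptc : PtcStatement := by
  intro k _ p
  obtain ⟨φ, hφ⟩ := Spec.map_surjective p.left
  have hw : p.left ≫ sC k = 𝟙 _ := Over.w p
  have h1 : CommRingCat.ofHom (algebraMap k (B k)) ≫ φ = 𝟙 (CommRingCat.of k) := by
    apply Spec.map_injective
    rw [Spec.map_comp, hφ, Spec.map_id]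
    exact hw
  let f : B k →ₐ[k] k :=
    { φ.hom with
      commutes' := fun r => by
        have := congrArg (fun g : CommRingCat.of k ⟶ CommRingCat.of k => g.hom r) h1
        exact this }
  have hf : (f : B k →+* k) = φ.hom := rfl
  have h2 : OnC (f (bx k)) (f (by' k)) := by
    have := congrArg f (onC_b k)
    simpa [OnC] using this
  refine ⟨f (bx k), f (by' k), h2, ?_⟩
  apply Over.OverMorphism.ext
  change p.left = Spec.map (CommRingCat.ofHom (bHom (R := k) _ _ h2 : B k →+* k))
  have h3 : f = bHom (f (bx k)) (f (by' k)) h2 := bHom_self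
  rw [← h3, ← hφ]
  rfl

theorem aff_nonsingular {k : Type} [Field k] [CharZero k] {a b : k} (h : OnC a b) :
    (W k).Nonsingular a b := by
  unfold OnC at h
  rw [WeierstrassCurve.Affine.nonsingular_iff]
  refine ⟨?_, ?_⟩
  · rw [WeierstrassCurve.Affine.equation_iff]
    linear_combination h
  · simp only [zero_mul, mul_zero, add_zero, sub_zero, ne_eq]
    by_contra hc
    push Not at hc
    obtain ⟨h1, h2⟩ := hc
    have hb : b = 0 := by
      have h3 : (2 : k) * b = 0 := by linear_combination h2
      rcases mul_eq_zero.1 h3 with h4 | h4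
      · exact absurd h4 two_ne_zero
      · exact h4
    subst hb
    have h4 : a ^ 3 - a = 0 := by linear_combination -h
    have h5 : 3 * a ^ 2 - 1 = 0 := by linear_combination -h1
    have h6 : (2 : k) = 0 := by
      linear_combination (-(9 * a)) * h4 + (3 * a ^ 2 - 2) * h5
    exact two_ne_zero h6

theorem affm : AffStatement := by
  intro k _ _ a b h
  refine ⟨aff_nonsingular h, ?_⟩
  unfold aff
  rw [dif_pos (aff_nonsingular h)]

end Pool.Agent.Lib.MP_c7af3c_ag.ELL.H86
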