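import Pool.Agent.Lib.MP_c7af3c_ag.ELL.Iface
import Pool.Agent.Lib.MP_c7af3c_ag.GEN.H38.Sproj

/-!
# MP_c7af3c_ag, project ELL: points of projective space with homogeneous coordinates
-/

set_option autoImplicit false

namespace Pool.Agent.Lib.MP_c7af3c_ag.ELL.H86

open AlgebraicGeometry CategoryTheory CategoryTheory.Limits Pool.Agent.Ell
open Pool.Agent.Gen Pool.Agent.Gen.H38 HomogeneousLocalization
open MvPolynomial (homogeneousSubmodule)

section

variable (k : Type) [Field k] (n : ℕ) [GradedAlgebra (homogeneousSubmodule (Fin (n + 1)) k)]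
  {A : Type} [CommRing A] [Algebra k A]

/-- evaluation of a fraction of degree zero -/
noncomputable def evG (f : MvPolynomial (Fin (n + 1)) k) (z : Fin (n + 1) → A)
    (hz : IsUnit (MvPolynomial.aeval z f : A)) : Away (gr k n) f →+* A :=
  (IsLocalization.Away.lift f (S := Localization (Submonoid.powers f))
    (g := (MvPolynomial.aeval z : MvPolynomial (Fin (n + 1)) k →ₐ[k] A).toRingHom) hz).comp
    (algebraMap (Away (gr k n) f) (Localization (Submonoid.powers f)))

theorem evG_mk {f : MvPolynomial (Fin (n + 1)) k} (z : Fin (n + 1) → A)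
    (hz : IsUnit (MvPolynomial.aeval z f : A)) {m : ℕ} (hf : f ∈ gr k n m) (d : ℕ)
    (F : MvPolynomial (Fin (n + 1)) k) (hF : F ∈ gr k n (d • m)) :
    evG k n f z hz (Away.mk (gr k n) hf d F hF) * (MvPolynomial.aeval z f) ^ d =
      MvPolynomial.aeval z F := by
  have h1 : (Away.mk (gr k n) hf d F hF).val * algebraMap (MvPolynomial (Fin (n + 1)) k)
      (Localization (Submonoid.powers f)) (f ^ d) = algebraMap (MvPolynomial (Fin (n + 1)) k)
      (Localization (Submonoid.powers f)) F := by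
    rw [Away.val_mk, ← Localization.mk_one_eq_algebraMap, ← Localization.mk_one_eq_algebraMap,
      Localization.mk_mul, Localization.mk_eq_mk_iff, Localization.r_iff_exists]
    refine ⟨1, ?_⟩
    simp [mul_comm]
  have h2 := congrArg (IsLocalization.Away.lift f (S := Localization (Submonoid.powers f))
    (g := (MvPolynomial.aeval z : MvPolynomial (Fin (n + 1)) k →ₐ[k] A).toRingHom) hz) h1
  rw [map_mul, IsLocalization.Away.lift_eq, IsLocalization.Away.lift_eq] at h2
  have h3 : (MvPolynomial.aeval z : MvPolynomial (Fin (n + 1)) k →ₐ[k] A).toRingHom (f ^ d) =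
      (MvPolynomial.aeval z f) ^ d := map_pow (MvPolynomial.aeval z) f d
  rw [h3] at h2
  exact h2

theorem evG_unique {f : MvPolynomial (Fin (n + 1)) k} (z : Fin (n + 1) → A)
    (hz : IsUnit (MvPolynomial.aeval z f : A)) {m : ℕ} (hf : f ∈ gr k n m)
    (ψ : Away (gr k n) f →+* A)
    (h : ∀ (d : ℕ) (F : MvPolynomial (Fin (n + 1)) k) (hF : F ∈ gr k n (d • m)), ∃ c : A,
      IsUnit c ∧ ψ (Away.mk (gr k n) hf d F hF) * (MvPolynomial.aeval z f) ^ d * c =
        MvPolynomial.aeval z F * c) : ψ = evG k n f z hz := by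
  apply RingHom.ext
  intro t
  obtain ⟨d, F, hF, rfl⟩ := Away.mk_surjective (gr k n) hf t
  obtain ⟨c, hc, h1⟩ := h d F hF
  have h2 := evG_mk k n z hz hf d F hF
  rw [← h2] at h1
  have h3 := hc.mul_right_cancel h1
  exact (hz.pow d).mul_right_cancel h3

/-- the point with given homogeneous coordinates -/
noncomputable def gP {f : MvPolynomial (Fin (n + 1)) k} {m : ℕ} (hf : f ∈ gr k n m) (hm : 0 < m)
    (z : Fin (n + 1) → A) (hz : IsUnit (MvPolynomial.aeval z f : A)) :
    Spec (CommRingCat.of A) ⟶ Proj (homogeneousSubmodule (Fin (n + 1)) k) :=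
  Spec.map (CommRingCat.ofHom (evG k n f z hz)) ≫ Proj.awayι (gr k n) f hf hm

theorem gP_mul {f g x : MvPolynomial (Fin (n + 1)) k} {m m' : ℕ} (hf : f ∈ gr k n m)
    (hm : 0 < m) (hg : g ∈ gr k n m') (hx : x = f * g) (hxm : x ∈ gr k n (m + m'))
    (z : Fin (n + 1) → A)
    (hz : IsUnit (MvPolynomial.aeval z f : A)) (hz' : IsUnit (MvPolynomial.aeval z x : A)) :
    gP k n hxm (hm.trans_le (m.le_add_right m')) z hz' = gP k n hf hm z hz := by
  unfold gP
  rw [← Proj.SpecMap_awayMap_awayι (gr k n) hf hm hg hx, ← Category.assoc, ← Spec.map_comp,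
    ← CommRingCat.ofHom_comp]
  congr 3
  refine evG_unique k n z hz hf _ fun d F hF => ⟨(MvPolynomial.aeval z g) ^ d, ?_, ?_⟩
  · have h1 : IsUnit (MvPolynomial.aeval z g : A) := by
      rw [hx, map_mul] at hz'
      exact isUnit_of_mul_isUnit_right hz'
    exact h1.pow d
  · rw [RingHom.comp_apply, awayMap_mk]
    have h2 := evG_mk k n z hz' (hx ▸ SetLike.mul_mem_graded hf hg) d (F * g ^ d) (by
      rw [smul_add]
      exact SetLike.mul_mem_graded hF (SetLike.pow_mem_graded d hg))
    have h3 : (MvPolynomial.aeval z (F * g ^ d) : A) =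
        MvPolynomial.aeval z F * MvPolynomial.aeval z g ^ d := by
      rw [map_mul (MvPolynomial.aeval z), map_pow (MvPolynomial.aeval z)]
    have h4 : (MvPolynomial.aeval z x : A) = MvPolynomial.aeval z f * MvPolynomial.aeval z g := by
      rw [hx, map_mul (MvPolynomial.aeval z)]
    rw [← h3, ← h2, h4, mul_pow, mul_assoc]

omit [GradedAlgebra (homogeneousSubmodule (Fin (n + 1)) k)] in
theorem aevalX (z : Fin (n + 1) → A) (j : Fin (n + 1)) (hz : IsUnit (z j)) :
    IsUnit (MvPolynomial.aeval z (MvPolynomial.X j : MvPolynomial (Fin (n + 1)) k) : A) := by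
  rw [MvPolynomial.aeval_X]
  exact hz

/-- the point with given homogeneous coordinates, in the chart `j` -/
noncomputable def gX (j : Fin (n + 1)) (z : Fin (n + 1) → A) (hz : IsUnit (z j)) :
    Spec (CommRingCat.of A) ⟶ Proj (homogeneousSubmodule (Fin (n + 1)) k) :=
  gP k n (X_mem k n j) one_pos z (aevalX k n z j hz)

theorem gX_chart (i j : Fin (n + 1)) (z : Fin (n + 1) → A) (hi : IsUnit (z i))
    (hj : IsUnit (z j)) : gX k n i z hi = gX k n j z hj := by
  have hx : (MvPolynomial.X i * MvPolynomial.X j : MvPolynomial (Fin (n + 1)) k) ∈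
      gr k n (1 + 1) := SetLike.mul_mem_graded (X_mem k n i) (X_mem k n j)
  have hz' : IsUnit (MvPolynomial.aeval z
      (MvPolynomial.X i * MvPolynomial.X j : MvPolynomial (Fin (n + 1)) k) : A) := by
    rw [map_mul, MvPolynomial.aeval_X, MvPolynomial.aeval_X]
    exact hi.mul hj
  have h1 := gP_mul k n (X_mem k n i) one_pos (X_mem k n j) rfl hx z (aevalX k n z i hi) hz'
  have h2 := gP_mul k n (X_mem k n j) one_pos (X_mem k n i) (mul_comm _ _) hx z
    (aevalX k n z j hj) hz'
  exact h1.symm.trans h2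

theorem gX_smul (j : Fin (n + 1)) (z z' : Fin (n + 1) → A) (c : A) (hc : IsUnit c)
    (hz : IsUnit (z j)) (hz' : IsUnit (z' j)) (h : ∀ l, z' l = c * z l) :
    gX k n j z' hz' = gX k n j z hz := by
  unfold gX gP
  congr 3
  refine evG_unique k n z (aevalX k n z j hz) (X_mem k n j) _ fun d F hF =>
    ⟨c ^ d, hc.pow d, ?_⟩
  have h1 := evG_mk k n z' (aevalX k n z' j hz') (X_mem k n j) d F hF
  have hF' : F.IsHomogeneous d := by
    rw [smul_eq_mul, mul_one, MvPolynomial.mem_homogeneousSubmodule] at hF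
    exact hF
  have h2 : (MvPolynomial.aeval z' F : A) = c ^ d * MvPolynomial.aeval z F := by
    have h3 : z' = fun l => c * z l := funext h
    rw [h3, MvPolynomial.aeval_def, MvPolynomial.aeval_def, MvPolynomial.eval₂_eq',
      MvPolynomial.eval₂_eq', Finset.mul_sum]
    refine Finset.sum_congr rfl fun m hm => ?_
    have h5 : ∑ i, m i = d := by
      have h6 := hF' (MvPolynomial.mem_support_iff.mp hm)
      rw [← h6, Finsupp.weight_apply, Finsupp.sum_fintype]
      · simp
      · simp
    simp only [mul_pow, Finset.prod_mul_distrib, Finset.prod_pow_eq_pow_sum, h5]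
    ring
  rw [h2, MvPolynomial.aeval_X, h j, mul_pow] at h1
  rw [MvPolynomial.aeval_X]
  linear_combination h1

theorem gX_map {A' : Type} [CommRing A'] [Algebra k A'] (φ : A →ₐ[k] A') (j : Fin (n + 1))
    (z : Fin (n + 1) → A) (hz : IsUnit (z j)) (z' : Fin (n + 1) → A') (hz' : IsUnit (z' j))
    (h : ∀ l, φ (z l) = z' l) :
    Spec.map (CommRingCat.ofHom (φ : A →+* A')) ≫ gX k n j z hz = gX k n j z' hz' := by
  unfold gX gP
  rw [← Category.assoc, ← Spec.map_comp, ← CommRingCat.ofHom_comp]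
  congr 3
  refine evG_unique k n z' (aevalX k n z' j hz') (X_mem k n j) _ fun d F hF =>
    ⟨1, isUnit_one, ?_⟩
  have h1 := congrArg φ (evG_mk k n z (aevalX k n z j hz) (X_mem k n j) d F hF)
  have h2 : ∀ G : MvPolynomial (Fin (n + 1)) k, φ (MvPolynomial.aeval z G) =
      MvPolynomial.aeval z' G := by
    intro G
    have h3 : φ.comp (MvPolynomial.aeval z) = MvPolynomial.aeval z' := by
      apply MvPolynomial.algHom_ext
      intro l
      rw [AlgHom.comp_apply, MvPolynomial.aeval_X, MvPolynomial.aeval_X, h]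
    exact congrArg (fun g : MvPolynomial (Fin (n + 1)) k →ₐ[k] A' => g G) h3
  rw [map_mul, map_pow, h2, h2] at h1
  rw [mul_one, mul_one]
  exact h1

theorem gX_str (j : Fin (n + 1)) (z : Fin (n + 1) → A) (hz : IsUnit (z j)) :
    gX k n j z hz ≫ projStr k n = Spec.map (CommRingCat.ofHom (algebraMap k A)) := by
  have h1 : Proj.awayι (gr k n) (MvPolynomial.X j) (X_mem k n j) one_pos ≫ projStr k n =
      Spec.map (CommRingCat.ofHom (cst k n j)) := by
    unfold projStr
    rw [← Category.assoc, Proj.awayι_toSpecZero (gr k n) (MvPolynomial.X j) (X_mem k n j)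
      one_pos, ← Spec.map_comp]
    rfl
  unfold gX gP
  rw [Category.assoc, h1, ← Spec.map_comp, ← CommRingCat.ofHom_comp]
  congr 2
  refine RingHom.ext fun a => ?_
  have h2 := congrArg (IsLocalization.Away.lift
    (MvPolynomial.X j : MvPolynomial (Fin (n + 1)) k)
    (S := Localization (Submonoid.powers (MvPolynomial.X j : MvPolynomial (Fin (n + 1)) k)))
    (g := (MvPolynomial.aeval z : MvPolynomial (Fin (n + 1)) k →ₐ[k] A).toRingHom)
    (aevalX k n z j hz)) (val_cst k n j a)
  rw [IsLocalization.Away.lift_eq] at h2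
  refine Eq.trans h2 ?_
  exact MvPolynomial.aeval_C z a

theorem gX_ne (i j : Fin (n + 1)) (v : Fin (n + 1) → k) (hi : IsUnit (v i))
    (h : ⊤ ≤ (gX k n i v hi) ⁻¹ᵁ
      Proj.basicOpen (homogeneousSubmodule (Fin (n + 1)) k) (MvPolynomial.X j)) : v j ≠ 0 := by
  intro hj
  let o : Spec (CommRingCat.of k) := IsLocalRing.closedPoint k
  have h0 := h (TopologicalSpace.Opens.mem_top o)
  have h6 := Proj.awayι_preimage_basicOpen (gr k n) (X_mem k n i) one_pos (X_mem k n j) one_pos
  have h7 : Spec.map (CommRingCat.ofHom (evG k n (MvPolynomial.X i) v (aevalX k n v i hi))) o ∈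
      Proj.awayι (gr k n) (MvPolynomial.X i) (X_mem k n i) one_pos ⁻¹ᵁ
        Proj.basicOpen (gr k n) (MvPolynomial.X j) := h0
  rw [h6] at h7
  have h8 : evG k n (MvPolynomial.X i) v (aevalX k n v i hi)
      (Away.isLocalizationElem (X_mem k n i) (X_mem k n j)) ∉ o.asIdeal := h7
  apply h8
  have h9 : evG k n (MvPolynomial.X i) v (aevalX k n v i hi)
      (Away.isLocalizationElem (X_mem k n i) (X_mem k n j)) = 0 := by
    have h10 := evG_mk k n v (aevalX k n v i hi) (X_mem k n i) 1 (MvPolynomial.X j ^ 1)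
      (by simpa using X_mem k n j)
    rw [map_pow, MvPolynomial.aeval_X, MvPolynomial.aeval_X, hj] at h10
    have h11 : evG k n (MvPolynomial.X i) v (aevalX k n v i hi)
        (Away.isLocalizationElem (X_mem k n i) (X_mem k n j)) * v i ^ 1 = 0 ^ 1 := h10
    rw [pow_one, pow_one] at h11
    rcases mul_eq_zero.1 h11 with h12 | h12
    · exact h12
    · exact absurd h12 hi.ne_zero
  rw [h9]
  exact Ideal.zero_mem _

theorem gX_pcoord (j : Fin (n + 1)) (v : Fin (n + 1) → k) (hj : IsUnit (v j))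
    (P : Spec (CommRingCat.of k) ⟶ Proj (homogeneousSubmodule (Fin (n + 1)) k))
    (hP : P = gX k n j v hj)
    (h : ⊤ ≤ P ⁻¹ᵁ Proj.basicOpen (homogeneousSubmodule (Fin (n + 1)) k) (MvPolynomial.X j))
    (l : Fin (n + 1)) : pcoord k n j P h l = v l * (v j)⁻¹ := by
  subst hP
  have h3 := kval_awayToSection (gr k n) (MvPolynomial.X j) (X_mem k n j) one_pos
    (CommRingCat.ofHom (evG k n (MvPolynomial.X j) v (aevalX k n v j hj))) h (frX k n j l)
  refine Eq.trans ?_ (h3.trans ?_)
  · rfl
  · change evG k n (MvPolynomial.X j) v (aevalX k n v j hj) (frX k n j l) = _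
    have h10 := evG_mk k n v (aevalX k n v j hj) (X_mem k n j) 1 (MvPolynomial.X l)
      (X_mem' k n l)
    rw [pow_one, MvPolynomial.aeval_X, MvPolynomial.aeval_X] at h10
    rw [← h10, mul_assoc, mul_inv_cancel₀ hj.ne_zero, mul_one]
    rfl

end

end Pool.Agent.Lib.MP_c7af3c_ag.ELL.H86
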